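import Pool.Agent.H952R2.Sextic.CommonZero
import Pool.Agent.H159R3.Toric.Analytic

/-!
Integral points and entire curves on varieties given by few monomials that are high powers.
-/

set_option autoImplicit false

namespace Pool.Agent.H159R3.BLV

open MvPolynomial Pool.Agent.H159R3.NV Pool.Agent.H159R3.Toric IsDedekindDomain
open scoped Topology NumberField

/-- `V(O_S)` for the closed subscheme `V`, given by the polynomials `F i`, of the open part of
affine `n`-space over `𝓞 K` on which the coordinates with index in `U` are invertible. -/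
def intPoints {K : Type} [Field K] {ι : Type} {n : ℕ} (U : Set (Fin n))
    (F : ι → MvPolynomial (Fin n) (𝓞 K)) (L : Type) [Field L] [NumberField L] [Algebra K L]
    (S : Set (HeightOneSpectrum (𝓞 L))) : Set (Fin n → L) :=
  {x | (∀ j, x j ∈ S.integer L) ∧ (∀ j ∈ U, x j ≠ 0 ∧ (x j)⁻¹ ∈ S.integer L) ∧
    ∀ i, eval₂ ((algebraMap K L).comp (algebraMap (𝓞 K) K)) x (F i) = 0}

/-- Condition (ii): `V(O_S) ∖ V'(O_S)` is always finite. Here `V` is given by `F` and `V'` is the
closed subscheme of `V` given by `G`. -/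
def FinitelyManyIntegral {K : Type} [Field K] {ι ι' : Type} {n : ℕ} (U : Set (Fin n))
    (F : ι → MvPolynomial (Fin n) (𝓞 K)) (G : ι' → MvPolynomial (Fin n) (𝓞 K)) : Prop :=
  ∀ (L : Type) [Field L] [NumberField L] [Algebra K L] (S : Set (HeightOneSpectrum (𝓞 L))),
    S.Finite → (intPoints U F L S \ intPoints U G L S).Finite

/-- Condition (i): every entire curve in `V(ℂ)` lies in `V'(ℂ)`. -/
def EntireCurvesIn {K : Type} [Field K] {ι ι' : Type} {n : ℕ} (σ : K →+* ℂ) (U : Set (Fin n))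
    (F : ι → MvPolynomial (Fin n) (𝓞 K)) (G : ι' → MvPolynomial (Fin n) (𝓞 K)) : Prop :=
  ∀ f : ℂ → Fin n → ℂ, Differentiable ℂ f → (∀ z, ∀ j ∈ U, f z j ≠ 0) →
    (∀ z i, eval₂ (σ.comp (algebraMap (𝓞 K) K)) (f z) (F i) = 0) → (∃ z w, f z ≠ f w) →
    ∀ z j, eval₂ (σ.comp (algebraMap (𝓞 K) K)) (f z) (G j) = 0

/-- The exponents (outside `U`) of `F` are divisible by some `N` that is large compared with the
number of monomials. -/
def PowerSparse {R : Type} [CommRing R] {n : ℕ} (U : Set (Fin n)) (F : MvPolynomial (Fin n) R) :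
    Prop :=
  ∃ N : ℕ, 0 < N ∧ (F.support.card - 1) ^ 2 ≤ N ∧ ∀ α ∈ F.support, ∀ j, j ∉ U → N ∣ α j

section

variable {n : ℕ}

theorem zpow_sum_ne {L : Type} [Field L] {t : L} (ht : t ≠ 0) {ι : Type} (s : Finset ι)
    (g : ι → ℤ) : t ^ (∑ j ∈ s, g j) = ∏ j ∈ s, t ^ g j := by
  classical
  induction s using Finset.induction_on with
  | empty => simp
  | insert a s ha ih => rw [Finset.sum_insert ha, Finset.prod_insert ha, zpow_add₀ ht, ih]

/-- Laurent version of the evaluation at a point of a torus orbit -/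
theorem eval_laurent {R L : Type} [CommRing R] [Field L] (φ : R →+* L)
    (F : MvPolynomial (Fin n) R) (κ : Fin n → L) (b : Fin n → ℤ) (t : L) (ht : t ≠ 0) :
    eval₂ φ (fun j => κ j * t ^ b j) F
      = ∑ α ∈ F.support, t ^ (∑ j, (α j : ℤ) * b j) * (φ (F.coeff α) * ∏ j, κ j ^ α j) := by
  rw [eval₂_eq']
  refine Finset.sum_congr rfl fun α _ => ?_
  have h2 : ∏ j, (κ j * t ^ b j) ^ α j = (∏ j, κ j ^ α j) * t ^ (∑ j, (α j : ℤ) * b j) := by
    have h3 : t ^ (∑ j, (α j : ℤ) * b j) = ∏ j, (t ^ b j) ^ α j := by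
      rw [zpow_sum_ne ht]
      refine Finset.prod_congr rfl fun j _ => ?_
      rw [← zpow_natCast, ← zpow_mul, mul_comm]
    rw [h3, ← Finset.prod_mul_distrib]
    exact Finset.prod_congr rfl fun j _ => mul_pow _ _ _
  rw [h2]
  ring

theorem eval_laurent_zero {R L : Type} [CommRing R] [Field L] (φ : R →+* L)
    (F : MvPolynomial (Fin n) R) (κ : Fin n → L) (b : Fin n → ℤ) (t : L) (ht : t ≠ 0)
    (h : ∀ v : ℤ, ∑ α ∈ F.support.filter (fun α => ∑ j, (α j : ℤ) * b j = v),
      φ (F.coeff α) * ∏ j, κ j ^ α j = 0) :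
    eval₂ φ (fun j => κ j * t ^ b j) F = 0 := by
  classical
  rw [eval_laurent φ F κ b t ht]
  rw [← Finset.sum_fiberwise_of_maps_to (s := F.support)
    (t := F.support.image (fun α => ∑ j, (α j : ℤ) * b j))
    (g := fun α => ∑ j, (α j : ℤ) * b j) (fun α hα => Finset.mem_image_of_mem _ hα)]
  apply Finset.sum_eq_zero
  intro v _
  have h4 : ∀ α ∈ F.support.filter (fun α => ∑ j, (α j : ℤ) * b j = v),
      t ^ (∑ j, (α j : ℤ) * b j) * (φ (F.coeff α) * ∏ j, κ j ^ α j)
        = t ^ v * (φ (F.coeff α) * ∏ j, κ j ^ α j) := by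
    intro α hα
    rw [(Finset.mem_filter.mp hα).2]
  rw [Finset.sum_congr rfl h4, ← Finset.mul_sum, h v, mul_zero]

/-- If `G` does not vanish at `κ` then it vanishes at only finitely many points of the orbit. -/
theorem finite_zeros {R L : Type} [CommRing R] [Field L] [CharZero L] (φ : R →+* L)
    (G : MvPolynomial (Fin n) R) (κ : Fin n → L) (b : Fin n → ℤ) (h : eval₂ φ κ G ≠ 0) :
    {k : ℕ | eval₂ φ (fun j => κ j * ((2 : L) ^ k) ^ b j) G = 0}.Finite := by
  classical
  set c : ℤ := ∑ α ∈ G.support, |∑ j, (α j : ℤ) * b j| with hc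
  have hcpos : ∀ α ∈ G.support, 0 ≤ (∑ j, (α j : ℤ) * b j) + c := by
    intro α hα
    have h1 : |∑ j, (α j : ℤ) * b j| ≤ c := Finset.single_le_sum
      (f := fun α : Fin n →₀ ℕ => |∑ j, (α j : ℤ) * b j|) (fun i _ => abs_nonneg _) hα
    have h2 := neg_abs_le (∑ j, (α j : ℤ) * b j)
    linarith
  let g : Polynomial L := ∑ α ∈ G.support, Polynomial.C (φ (G.coeff α) * ∏ j, κ j ^ α j) *
    Polynomial.X ^ ((∑ j, (α j : ℤ) * b j) + c).toNat
  have hg : ∀ t : L, t ≠ 0 → g.eval t = t ^ c * eval₂ φ (fun j => κ j * t ^ b j) G := by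
    intro t ht
    rw [eval_laurent φ G κ b t ht, Finset.mul_sum]
    simp only [g]
    rw [Polynomial.eval_finsetSum]
    refine Finset.sum_congr rfl fun α hα => ?_
    rw [Polynomial.eval_mul, Polynomial.eval_C, Polynomial.eval_pow, Polynomial.eval_X]
    have h1 : t ^ ((∑ j, (α j : ℤ) * b j) + c).toNat = t ^ c * t ^ (∑ j, (α j : ℤ) * b j) := by
      rw [← zpow_natCast, Int.toNat_of_nonneg (hcpos α hα), zpow_add₀ ht]
      ring
    rw [h1]
    ring
  have hg0 : g ≠ 0 := by
    intro h0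
    have h1 := hg 1 one_ne_zero
    rw [h0, Polynomial.eval_zero] at h1
    simp only [one_zpow, mul_one, one_mul] at h1
    exact h h1.symm
  have hinj : Function.Injective (fun k : ℕ => (2 : L) ^ k) := by
    intro k k' hk
    have h5 : ((2 ^ k : ℕ) : L) = ((2 ^ k' : ℕ) : L) := by
      push_cast; exact hk
    exact Nat.pow_right_injective (le_refl 2) (Nat.cast_injective h5)
  have hfin : {k : ℕ | (2 : L) ^ k ∈ {x | g.IsRoot x}}.Finite :=
    (Polynomial.finite_setOf_isRoot hg0).preimage hinj.injOn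
  refine hfin.subset ?_
  intro k hk
  change g.eval ((2 : L) ^ k) = 0
  rw [hg _ (pow_ne_zero _ two_ne_zero), hk, mul_zero]

end

/-- Analytic part: a nonconstant entire curve in `V(ℂ)` not contained in `V'(ℂ)` yields a point and
a one-parameter subgroup. -/
theorem analytic {K : Type} [Field K] [NumberField K] {ι ι' : Type} {n : ℕ} (U : Set (Fin n))
    (F : ι → MvPolynomial (Fin n) (𝓞 K)) (G : ι' → MvPolynomial (Fin n) (𝓞 K))
    (hC : ∀ i, PowerSparse U (F i)) (σ : K →+* ℂ) (hσ : ¬ EntireCurvesIn σ U F G) :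
    ∃ (p : Fin n → ℂ) (b : Fin n → ℤ) (j1 : Fin n) (i' : ι'), p j1 ≠ 0 ∧ b j1 ≠ 0 ∧
      (∀ j ∈ U, p j ≠ 0) ∧ eval₂ (σ.comp (algebraMap (𝓞 K) K)) p (G i') ≠ 0 ∧
      ∀ i (v : ℤ), ∑ α ∈ (F i).support.filter (fun α => ∑ j, (α j : ℤ) * b j = v),
        σ (algebraMap (𝓞 K) K ((F i).coeff α)) * ∏ j, p j ^ α j = 0 := by
  classical
  unfold EntireCurvesIn at hσ
  push Not at hσ
  obtain ⟨f, hf, hfU, hfF, ⟨z1, z2, hz12⟩, zG, i', hG⟩ := hσ
  set φ : 𝓞 K →+* ℂ := σ.comp (algebraMap (𝓞 K) K) with hφ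
  have hφinj : Function.Injective φ :=
    σ.injective.comp (FaithfulSMul.algebraMap_injective (𝓞 K) K)
  have hfj : ∀ j, Differentiable ℂ (fun z => f z j) := fun j => by
    rw [differentiable_pi] at hf
    exact hf j
  have hfd : ∀ j, Differentiable ℂ (deriv (fun z => f z j)) := fun j =>
    ((hfj j).contDiff (n := 2)).differentiable_deriv_two
  obtain ⟨j1, hj1⟩ := Function.ne_iff.mp hz12
  have hder : ∃ z, deriv (fun z => f z j1) z ≠ 0 := by
    by_contra hcon
    push Not at hcon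
    exact hj1 (is_const_of_deriv_eq_zero (hfj j1) hcon z1 z2)
  obtain ⟨zd, hzd⟩ := hder
  have hGd : Differentiable ℂ (fun z => eval₂ φ (f z) (G i')) := by
    have : (fun z => eval₂ φ (f z) (G i'))
        = fun z => ∑ α ∈ (G i').support, φ ((G i').coeff α) * ∏ j, f z j ^ α j := by
      funext z
      rw [eval₂_eq']
    rw [this]
    apply Differentiable.fun_sum
    intro α _
    apply Differentiable.const_mul
    apply Differentiable.fun_finset_prod
    intro j _
    exact (hfj j).pow _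
  have hev : ∀ᶠ z in 𝓝[≠] (0 : ℂ), (∀ j, (∃ z, f z j ≠ 0) → f z j ≠ 0) ∧
      deriv (fun z => f z j1) z ≠ 0 ∧ eval₂ φ (f z) (G i') ≠ 0 := by
    refine Filter.Eventually.and ?_ (Filter.Eventually.and (ev_ne (hfd j1) hzd 0) (ev_ne hGd hG 0))
    rw [Filter.eventually_all]
    intro j
    by_cases hj : ∃ z, f z j ≠ 0
    · obtain ⟨z, hz⟩ := hj
      filter_upwards [ev_ne (hfj j) hz 0] with w hw _
      exact hw
    · exact Filter.Eventually.of_forall fun w hw => absurd hw hj
  obtain ⟨z0, hz0, hz0d, hz0G⟩ := hev.exists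
  have hj10 : f z0 j1 ≠ 0 := by
    apply hz0
    by_contra hcon
    push Not at hcon
    exact hj1 ((hcon z1).trans (hcon z2).symm)
  set u : Fin n → ℂ := fun j => deriv (fun z => f z j) z0 / f z0 j with hu
  have hune : ∑ j, (((Pi.single j1 1 : Fin n → ℤ) j : ℤ) : ℂ) * u j ≠ 0 := by
    rw [Finset.sum_eq_single j1]
    · simp only [Pi.single_eq_same, Int.cast_one, one_mul]
      exact div_ne_zero hz0d hj10
    · intro j _ hj
      simp [hj]
    · simp
  obtain ⟨b, hb, hbp⟩ := exists_b u _ hune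
  have hbj1 : b j1 ≠ 0 := by
    intro h0
    apply hbp
    rw [Finset.sum_eq_single j1]
    · simp [h0]
    · intro j _ hj
      simp [hj]
    · simp
  refine ⟨f z0, b, j1, i', hj10, hbj1, fun j hj => hfU z0 j hj, hz0G, ?_⟩
  intro i v
  obtain ⟨N, hN, hs, hdiv⟩ := hC i
  have hsupp : (map φ (F i)).support = (F i).support := support_map_of_injective _ hφinj
  have h1 := toric (fun j z => f z j) hfj U (fun j hj z => hfU z j hj) z0 hz0 b hb (map φ (F i)) hN
    (by rw [hsupp]; exact hs) (by rw [hsupp]; exact hdiv)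
    (fun z => by
      have := hfF z i
      rw [eval₂_eq_eval_map] at this
      exact this) v
  rw [hsupp] at h1
  rw [← h1]
  refine Finset.sum_congr rfl fun α _ => ?_
  rw [coeff_map]
  rfl

/-- The implication (ii) ⟹ (i) of the Bombieri-Lang-Vojta conjecture for these varieties. -/
theorem main {K : Type} [Field K] [NumberField K] {ι ι' : Type} {n : ℕ} (U : Set (Fin n))
    (F : ι → MvPolynomial (Fin n) (𝓞 K)) (G : ι' → MvPolynomial (Fin n) (𝓞 K))
    (hC : ∀ i, PowerSparse U (F i)) (hfin : FinitelyManyIntegral U F G) (σ : K →+* ℂ) :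
    EntireCurvesIn σ U F G := by
  classical
  by_contra hσ
  obtain ⟨p, b, j1, i', hp1, hb1, hpU, hpG, hpF⟩ := analytic U F G hC σ hσ
  -- transfer to the algebraic closure
  let _ := σ.toAlgebra
  let P : ι × ℤ → MvPolynomial (Fin n) K := fun x =>
    ∑ α ∈ (F x.1).support.filter (fun α => ∑ j, (α j : ℤ) * b j = x.2),
      monomial α (algebraMap (𝓞 K) K ((F x.1).coeff α))
  have hP : ∀ (M : Type) [Field M] [Algebra K M] (y : Fin n → M) (x : ι × ℤ),
      aeval y (P x) = ∑ α ∈ (F x.1).support.filter (fun α => ∑ j, (α j : ℤ) * b j = x.2),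
        algebraMap K M (algebraMap (𝓞 K) K ((F x.1).coeff α)) * ∏ j, y j ^ α j := by
    intro M _ _ y x
    simp only [P]
    rw [map_sum]
    refine Finset.sum_congr rfl fun α _ => ?_
    rw [aeval_monomial, Finsupp.prod_fintype _ _ (fun j => pow_zero _)]
  have hGm : ∀ (M : Type) [Field M] [Algebra K M] (y : Fin n → M),
      aeval y (map (algebraMap (𝓞 K) K) (G i'))
        = eval₂ ((algebraMap K M).comp (algebraMap (𝓞 K) K)) y (G i') := by
    intro M _ _ y
    rw [aeval_def, eval₂_map]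
  obtain ⟨κ, hκ, hκ2⟩ := H952R2.Sextic.transfer (kb := AlgebraicClosure K) P
    (map (algebraMap (𝓞 K) K) (G i') * ∏ j ∈ Finset.univ.filter (fun j => p j ≠ 0), X j)
    ⟨p, fun x => by
      rw [hP ℂ]
      exact hpF x.1 x.2, by
      rw [map_mul, hGm ℂ, map_prod]
      simp only [aeval_X]
      exact mul_ne_zero hpG (Finset.prod_ne_zero_iff.mpr fun j hj => (Finset.mem_filter.mp hj).2)⟩
  rw [map_mul, hGm (AlgebraicClosure K), map_prod] at hκ2
  simp only [aeval_X] at hκ2
  have hκG := left_ne_zero_of_mul hκ2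
  have hκne : ∀ j, p j ≠ 0 → κ j ≠ 0 := by
    intro j hj
    exact Finset.prod_ne_zero_iff.mp (right_ne_zero_of_mul hκ2) j
      (Finset.mem_filter.mpr ⟨Finset.mem_univ j, hj⟩)
  -- descend to a number field
  let L := IntermediateField.adjoin K (Set.range κ)
  have hfinL : FiniteDimensional K L := by
    apply IntermediateField.finiteDimensional_adjoin
    intro x _
    exact Algebra.IsIntegral.isIntegral x
  have hNF : NumberField L := NumberField.of_module_finite K L
  let κL : Fin n → L := fun j => ⟨κ j, IntermediateField.subset_adjoin K _ ⟨j, rfl⟩⟩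
  have hκL0 : ∀ j, p j ≠ 0 → κL j ≠ 0 := fun j hj h0 => hκne j hj (congrArg Subtype.val h0)
  set φ : 𝓞 K →+* L := (algebraMap K L).comp (algebraMap (𝓞 K) K) with hφ
  have hGL : eval₂ φ κL (G i') ≠ 0 := by
    intro h0
    apply hκG
    have h1 := congrArg (algebraMap L (AlgebraicClosure K)) h0
    rw [map_zero] at h1
    rw [← h1, hom_eval₂]
    rfl
  have hFL : ∀ i (v : ℤ), ∑ α ∈ (F i).support.filter (fun α => ∑ j, (α j : ℤ) * b j = v),
      φ ((F i).coeff α) * ∏ j, κL j ^ α j = 0 := by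
    intro i v
    apply (algebraMap L (AlgebraicClosure K)).injective
    rw [map_zero, ← hκ (i, v), hP (AlgebraicClosure K), map_sum]
    refine Finset.sum_congr rfl fun α _ => ?_
    rw [map_mul, map_prod]
    simp only [map_pow]
    rfl
  -- the set of places
  let S : Set (HeightOneSpectrum (𝓞 L)) := (⋃ j, HeightOneSpectrum.Support (𝓞 L) (κL j)) ∪
    ((⋃ j, HeightOneSpectrum.Support (𝓞 L) (κL j)⁻¹) ∪ HeightOneSpectrum.Support (𝓞 L) (2⁻¹ : L))
  have hS : S.Finite := by
    refine Set.Finite.union (Set.finite_iUnion fun j => HeightOneSpectrum.Support.finite _ _)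
      (Set.Finite.union (Set.finite_iUnion fun j => HeightOneSpectrum.Support.finite _ _)
        (HeightOneSpectrum.Support.finite _ _))
  have hmem : ∀ x : L, HeightOneSpectrum.Support (𝓞 L) x ⊆ S → x ∈ S.integer L := by
    intro x hx v hv
    by_contra hcon
    exact hv (hx (not_le.mp hcon))
  have hκint : ∀ j, κL j ∈ S.integer L := fun j =>
    hmem _ (fun v hv => Or.inl (Set.mem_iUnion.mpr ⟨j, hv⟩))
  have hκint' : ∀ j, (κL j)⁻¹ ∈ S.integer L := fun j =>
    hmem _ (fun v hv => Or.inr (Or.inl (Set.mem_iUnion.mpr ⟨j, hv⟩)))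
  have h2int' : (2⁻¹ : L) ∈ S.integer L := hmem _ (fun v hv => Or.inr (Or.inr hv))
  have h2int : (2 : L) ∈ S.integer L := by
    have : (2 : L) = 1 + 1 := by norm_num
    rw [this]
    exact (S.integer L).add_mem (S.integer L).one_mem (S.integer L).one_mem
  have hpow : ∀ (k : ℕ) (c : ℤ), ((2 : L) ^ k) ^ c ∈ S.integer L := by
    intro k c
    obtain ⟨m, rfl | rfl⟩ := c.eq_nat_or_neg
    · rw [zpow_natCast]
      exact pow_mem (pow_mem h2int k) m
    · rw [zpow_neg, zpow_natCast, ← inv_pow, ← inv_pow]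
      exact pow_mem (pow_mem h2int' k) m
  -- the points
  let x : ℕ → Fin n → L := fun k j => κL j * ((2 : L) ^ k) ^ b j
  have h2k : ∀ k : ℕ, (2 : L) ^ k ≠ 0 := fun k => pow_ne_zero _ two_ne_zero
  have hxV : ∀ k, x k ∈ intPoints U F L S := by
    intro k
    refine ⟨fun j => (S.integer L).mul_mem (hκint j) (hpow k _), ?_, ?_⟩
    · intro j hj
      refine ⟨mul_ne_zero (hκL0 j (hpU j hj)) (zpow_ne_zero _ (h2k k)), ?_⟩
      simp only [x]
      rw [mul_inv, ← zpow_neg]
      exact (S.integer L).mul_mem (hκint' j) (hpow k _)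
    · intro i
      exact eval_laurent_zero φ (F i) κL b _ (h2k k) (hFL i)
  have hxinj : Function.Injective x := by
    intro k k' hk
    have h1 : κL j1 * ((2 : L) ^ k) ^ b j1 = κL j1 * ((2 : L) ^ k') ^ b j1 := congrFun hk j1
    have h2 := mul_left_cancel₀ (hκL0 j1 hp1) h1
    rw [← zpow_natCast, ← zpow_natCast, ← zpow_mul, ← zpow_mul] at h2
    have h3 : (2 : ℚ) ^ ((k : ℤ) * b j1) = (2 : ℚ) ^ ((k' : ℤ) * b j1) := by
      have h4 : ((2 ^ ((k : ℤ) * b j1) : ℚ) : L) = ((2 ^ ((k' : ℤ) * b j1) : ℚ) : L) := by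
        push_cast
        exact h2
      exact_mod_cast h4
    have h4 := zpow_right_injective₀ (by norm_num : (0 : ℚ) < 2) (by norm_num) h3
    have h5 := mul_right_cancel₀ hb1 h4
    exact_mod_cast h5
  have hzeros := finite_zeros φ (G i') κL b hGL
  have hinf : {k : ℕ | eval₂ φ (x k) (G i') = 0}ᶜ.Infinite := hzeros.infinite_compl
  have hsub : x '' {k : ℕ | eval₂ φ (x k) (G i') = 0}ᶜ ⊆ intPoints U F L S \ intPoints U G L S := by
    rintro _ ⟨k, hk, rfl⟩
    exact ⟨hxV k, fun h => hk (h.2.2 i')⟩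
  exact (hinf.image hxinj.injOn) ((hfin L S hS).subset hsub)

end Pool.Agent.H159R3.BLV
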